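import Pool.Agent.N71.RP.Stm

/-!
# Project RP: the hyperbola method (helper97)
-/

set_option autoImplicit false

namespace Pool.Agent.N97.RP

open Finset
open Pool.Agent.N71.RP

lemma cn_pairs (h : ℕ → ℕ → ℝ) (X : ℕ) :
    ∑ n ∈ Finset.Icc 1 X, ∑ m ∈ n.divisors, h m (n / m) =
      ∑ m ∈ Finset.Icc 1 X, ∑ k ∈ Finset.Icc 1 X, if m * k ≤ X then h m k else 0 := by
  have h1 : ∀ n : ℕ, ∑ m ∈ n.divisors, h m (n / m) =
      ∑ p ∈ n.divisorsAntidiagonal, h p.1 p.2 := fun n =>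
    (Nat.sum_divisorsAntidiagonal (fun m k => h m k)).symm
  rw [Finset.sum_congr rfl fun n _ => h1 n, ← Finset.sum_product', ← Finset.sum_filter]
  rw [← Finset.sum_fiberwise_of_maps_to (s := (Finset.Icc 1 X ×ˢ Finset.Icc 1 X).filter
    (fun p : ℕ × ℕ => p.1 * p.2 ≤ X)) (t := Finset.Icc 1 X) (g := fun p => p.1 * p.2)]
  · refine Finset.sum_congr rfl fun n hn => Finset.sum_congr ?_ fun _ _ => rfl
    rw [Finset.mem_Icc] at hn
    ext ⟨p, q⟩
    simp only [Nat.mem_divisorsAntidiagonal, Finset.mem_filter, Finset.mem_product, Finset.mem_Icc]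
    constructor
    · rintro ⟨h2, h3⟩
      have hp : 1 ≤ p := by
        rcases Nat.eq_zero_or_pos p with h4 | h4
        · subst h4
          omega
        · exact h4
      have hq : 1 ≤ q := by
        rcases Nat.eq_zero_or_pos q with h4 | h4
        · subst h4
          omega
        · exact h4
      have h5 : p ≤ p * q := Nat.le_mul_of_pos_right p hq
      have h6 : q ≤ p * q := Nat.le_mul_of_pos_left q hp
      exact ⟨⟨⟨⟨hp, by omega⟩, hq, by omega⟩, by omega⟩, h2⟩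
    · rintro ⟨_, h2⟩
      exact ⟨h2, by omega⟩
  · intro p hp
    simp only [Finset.mem_filter, Finset.mem_product, Finset.mem_Icc] at hp
    rw [Finset.mem_Icc]
    exact ⟨Nat.mul_pos (by omega) (by omega), hp.2⟩

lemma cn_swap (h : ℕ → ℕ → ℝ) (X y : ℕ) (hy : 1 ≤ y) (hyX : y ≤ X) :
    ∑ n ∈ Finset.Icc 1 X, ∑ m ∈ n.divisors, h m (n / m) =
      ∑ m ∈ Finset.Icc 1 y, ∑ k ∈ Finset.Icc 1 (X / m), h m k +
        ∑ k ∈ Finset.Icc 1 (X / y), ∑ m ∈ Finset.Ioc y (X / k), h m k := by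
  rw [cn_pairs]
  have hsplit : Finset.Icc 1 X = Finset.Icc 1 y ∪ Finset.Ioc y X := by
    ext m
    simp only [Finset.mem_union, Finset.mem_Icc, Finset.mem_Ioc]
    omega
  have hdis : Disjoint (Finset.Icc 1 y) (Finset.Ioc y X) := by
    rw [Finset.disjoint_left]
    intro m h1 h2
    rw [Finset.mem_Icc] at h1
    rw [Finset.mem_Ioc] at h2
    omega
  have e0 : ∑ m ∈ Finset.Icc 1 X, ∑ k ∈ Finset.Icc 1 X, (if m * k ≤ X then h m k else 0) =
      ∑ m ∈ Finset.Icc 1 y, ∑ k ∈ Finset.Icc 1 X, (if m * k ≤ X then h m k else 0) +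
      ∑ m ∈ Finset.Ioc y X, ∑ k ∈ Finset.Icc 1 X, (if m * k ≤ X then h m k else 0) := by
    rw [← Finset.sum_union hdis, ← hsplit]
  rw [e0]
  congr 1
  · refine Finset.sum_congr rfl fun m hm => ?_
    rw [Finset.mem_Icc] at hm
    rw [← Finset.sum_filter]
    refine Finset.sum_congr ?_ fun _ _ => rfl
    ext k
    rw [Finset.mem_filter, Finset.mem_Icc, Finset.mem_Icc, Nat.le_div_iff_mul_le (by omega),
      mul_comm k m]
    constructor
    · rintro ⟨⟨h1, _⟩, h2⟩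
      exact ⟨h1, h2⟩
    · rintro ⟨h1, h2⟩
      have h3 : k ≤ m * k := Nat.le_mul_of_pos_left k (by omega)
      exact ⟨⟨h1, by omega⟩, h2⟩
  · rw [Finset.sum_comm]
    have hsub : Finset.Icc 1 (X / y) ⊆ Finset.Icc 1 X :=
      Finset.Icc_subset_Icc le_rfl (Nat.div_le_self X y)
    rw [← Finset.sum_subset hsub]
    · refine Finset.sum_congr rfl fun k hk => ?_
      rw [Finset.mem_Icc] at hk
      rw [← Finset.sum_filter]
      refine Finset.sum_congr ?_ fun _ _ => rfl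
      ext m
      rw [Finset.mem_filter, Finset.mem_Ioc, Finset.mem_Ioc, Nat.le_div_iff_mul_le (by omega)]
      constructor
      · rintro ⟨⟨h1, _⟩, h2⟩
        exact ⟨h1, h2⟩
      · rintro ⟨h1, h2⟩
        have h3 : m ≤ m * k := Nat.le_mul_of_pos_right m (by omega)
        exact ⟨⟨h1, by omega⟩, h2⟩
    · intro k hk hk2
      rw [Finset.mem_Icc] at hk hk2
      refine Finset.sum_eq_zero fun m hm => ?_
      rw [Finset.mem_Ioc] at hm
      rw [if_neg]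
      intro h1
      apply hk2
      refine ⟨hk.1, ?_⟩
      rw [Nat.le_div_iff_mul_le (by omega)]
      calc k * y ≤ k * m := Nat.mul_le_mul_left k hm.1.le
        _ = m * k := mul_comm _ _
        _ ≤ X := h1

theorem t_CONV : E_CONV := by
  intro a f β M z E F x y hy hyx hβ0 hβ1 hR hF
  have hy0 : (0 : ℝ) < y := by exact_mod_cast hy
  have hx0 : 0 < x := lt_of_lt_of_le hy0 hyx
  set X : ℕ := ⌊x⌋₊ with hX
  have hyX : y ≤ X := Nat.le_floor hyx
  -- the sum over the pairs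
  have h1 : ∑ n ∈ Finset.Icc 1 X, cv f a n * (n : ℝ) ^ (-β) =
      ∑ n ∈ Finset.Icc 1 X, ∑ m ∈ n.divisors,
        (fun m k : ℕ => f m * (m : ℝ) ^ (-β) * (a k * (k : ℝ) ^ (-β))) m (n / m) := by
    refine Finset.sum_congr rfl fun n _ => ?_
    unfold cv
    rw [Finset.sum_mul]
    refine Finset.sum_congr rfl fun m hm => ?_
    have hn : (n : ℝ) = (m : ℝ) * ((n / m : ℕ) : ℝ) := by
      have := Nat.mul_div_cancel' (Nat.dvd_of_mem_divisors hm)
      exact_mod_cast this.symm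
    have e : (n : ℝ) ^ (-β) = (m : ℝ) ^ (-β) * ((n / m : ℕ) : ℝ) ^ (-β) := by
      conv_lhs => rw [hn]
      rw [Real.mul_rpow (Nat.cast_nonneg _) (Nat.cast_nonneg _)]
    rw [e]
    ring
  rw [h1.trans (cn_swap (fun m k : ℕ => f m * (m : ℝ) ^ (-β) * (a k * (k : ℝ) ^ (-β))) X y hy hyX)]
  -- the large `m`
  have hXy : X / y = ⌊x / y⌋₊ := by rw [hX, Nat.floor_div_natCast]
  have h2 : |∑ k ∈ Finset.Icc 1 (X / y), ∑ m ∈ Finset.Ioc y (X / k),
      f m * (m : ℝ) ^ (-β) * (a k * (k : ℝ) ^ (-β))| ≤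
      F * ∑ k ∈ Finset.Icc 1 ⌊x / y⌋₊, |a k| * (k : ℝ) ^ (-β) := by
    rw [← hXy, Finset.mul_sum]
    refine (Finset.abs_sum_le_sum_abs _ _).trans (Finset.sum_le_sum fun k hk => ?_)
    rw [Finset.mem_Icc] at hk
    rw [← Finset.sum_mul, abs_mul, abs_mul, abs_of_nonneg (Real.rpow_nonneg (Nat.cast_nonneg k) _)]
    refine mul_le_mul_of_nonneg_right (hF (X / k) ?_)
      (mul_nonneg (abs_nonneg _) (Real.rpow_nonneg (Nat.cast_nonneg k) _))
    rw [Nat.le_div_iff_mul_le (by omega), mul_comm]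
    exact (Nat.le_div_iff_mul_le (by omega)).1 hk.2
  -- the small `m`
  have h3 : |∑ m ∈ Finset.Icc 1 y, ∑ k ∈ Finset.Icc 1 (X / m),
      f m * (m : ℝ) ^ (-β) * (a k * (k : ℝ) ^ (-β)) - M * x ^ (1 - β) * la f y - z * gy f y β| ≤
      E * ∑ m ∈ Finset.Icc 1 y, |f m| * (m : ℝ) ^ (-β) := by
    have e : ∑ m ∈ Finset.Icc 1 y, ∑ k ∈ Finset.Icc 1 (X / m),
        f m * (m : ℝ) ^ (-β) * (a k * (k : ℝ) ^ (-β)) - M * x ^ (1 - β) * la f y -
          z * gy f y β = ∑ m ∈ Finset.Icc 1 y, f m * (m : ℝ) ^ (-β) *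
            (∑ k ∈ Finset.Icc 1 ⌊x / m⌋₊, a k * (k : ℝ) ^ (-β) - M * (x / m) ^ (1 - β) - z) := by
      unfold la gy
      rw [Finset.mul_sum, Finset.mul_sum, ← Finset.sum_sub_distrib, ← Finset.sum_sub_distrib]
      refine Finset.sum_congr rfl fun m hm => ?_
      rw [Finset.mem_Icc] at hm
      have hm0 : (0 : ℝ) < m := by
        have : 0 < m := by omega
        exact_mod_cast this
      have e1 : X / m = ⌊x / m⌋₊ := by rw [hX, Nat.floor_div_natCast]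
      have e2 : (m : ℝ) ^ (-β) * (x / m) ^ (1 - β) = x ^ (1 - β) / m := by
        rw [Real.div_rpow hx0.le hm0.le]
        have e3 : (m : ℝ) ^ (1 - β) = m * (m : ℝ) ^ (-β) := by
          rw [sub_eq_add_neg, Real.rpow_add hm0, Real.rpow_one]
        rw [e3]
        have e4 : (m : ℝ) ^ (-β) ≠ 0 := (Real.rpow_pos_of_pos hm0 _).ne'
        field_simp
      rw [← Finset.mul_sum, e1]
      have e5 : M * x ^ (1 - β) * (f m / m) = f m * M * ((m : ℝ) ^ (-β) * (x / m) ^ (1 - β)) := by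
        rw [e2]
        ring
      rw [e5]
      ring
    rw [e, Finset.mul_sum]
    refine (Finset.abs_sum_le_sum_abs _ _).trans (Finset.sum_le_sum fun m hm => ?_)
    rw [Finset.mem_Icc] at hm
    have hm0 : (0 : ℝ) < m := by
      have : 0 < m := by omega
      exact_mod_cast this
    have hm1 : (1 : ℝ) ≤ m := by exact_mod_cast hm.1
    have hmy : (m : ℝ) ≤ y := by exact_mod_cast hm.2
    rw [abs_mul, abs_mul, abs_of_nonneg (Real.rpow_nonneg hm0.le _), mul_comm E]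
    refine mul_le_mul_of_nonneg_left (hR (x / m) ?_ ?_)
      (mul_nonneg (abs_nonneg _) (Real.rpow_nonneg hm0.le _))
    · exact div_le_div_of_nonneg_left hx0.le hm0 hmy
    · exact div_le_self hx0.le hm1
  have h4 := abs_add_le (∑ m ∈ Finset.Icc 1 y, ∑ k ∈ Finset.Icc 1 (X / m),
      f m * (m : ℝ) ^ (-β) * (a k * (k : ℝ) ^ (-β)) - M * x ^ (1 - β) * la f y - z * gy f y β)
    (∑ k ∈ Finset.Icc 1 (X / y), ∑ m ∈ Finset.Ioc y (X / k),
      f m * (m : ℝ) ^ (-β) * (a k * (k : ℝ) ^ (-β)))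
  have e6 : (∑ m ∈ Finset.Icc 1 y, ∑ k ∈ Finset.Icc 1 (X / m),
      f m * (m : ℝ) ^ (-β) * (a k * (k : ℝ) ^ (-β)) +
      ∑ k ∈ Finset.Icc 1 (X / y), ∑ m ∈ Finset.Ioc y (X / k),
      f m * (m : ℝ) ^ (-β) * (a k * (k : ℝ) ^ (-β))) - M * x ^ (1 - β) * la f y -
        z * gy f y β = (∑ m ∈ Finset.Icc 1 y, ∑ k ∈ Finset.Icc 1 (X / m),
      f m * (m : ℝ) ^ (-β) * (a k * (k : ℝ) ^ (-β)) - M * x ^ (1 - β) * la f y - z * gy f y β) +
    (∑ k ∈ Finset.Icc 1 (X / y), ∑ m ∈ Finset.Ioc y (X / k),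
      f m * (m : ℝ) ^ (-β) * (a k * (k : ℝ) ^ (-β))) := by
    ring
  calc _ = |(∑ m ∈ Finset.Icc 1 y, ∑ k ∈ Finset.Icc 1 (X / m),
      f m * (m : ℝ) ^ (-β) * (a k * (k : ℝ) ^ (-β)) - M * x ^ (1 - β) * la f y - z * gy f y β) +
    (∑ k ∈ Finset.Icc 1 (X / y), ∑ m ∈ Finset.Ioc y (X / k),
      f m * (m : ℝ) ^ (-β) * (a k * (k : ℝ) ^ (-β)))| := by rw [← e6]
    _ ≤ _ := h4.trans (add_le_add h3 h2)

end Pool.Agent.N97.RP
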